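import Mathlib
import Pool.Agent.Lib.helper32.Coset

set_option autoImplicit false

namespace Pool.Agent.Results.MP_e825aa_al.Polish

open Pool.Agent.Lib.helper32

/-- `G/H` is an irreducible coset space: `H` is maximal among the proper closed subgroups of `G`. -/
def Irreducible' {G : Type} [Group G] [TopologicalSpace G] (H : Subgroup G) : Prop :=
  IsClosed (H : Set G) ∧ H ≠ ⊤ ∧ ∀ K : Subgroup G, IsClosed (K : Set G) → H ≤ K → K = H ∨ K = ⊤

/-- `G/H` is faithful: the conjugates of `H` intersect trivially. -/
def Faithful {G : Type} [Group G] (H : Subgroup G) : Prop :=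
  ∀ x : G, (∀ g : G, g * x * g⁻¹ ∈ H) → x = 1

/-- `M` is minimal among the nontrivial closed normal subgroups of `G`. -/
def MinNormal {G : Type} [Group G] [TopologicalSpace G] (M : Subgroup G) : Prop :=
  M.Normal ∧ IsClosed (M : Set G) ∧ M ≠ ⊥ ∧
    ∀ N : Subgroup G, N.Normal → IsClosed (N : Set G) → N ≤ M → N = ⊥ ∨ N = M

lemma minN (m : ℕ) : MinNormal (Coset.M m) :=
  ⟨Coset.M_normal m, Coset.M_closed m, Coset.M_ne m, fun N h _ h' => Coset.M_min m N h h'⟩

/-- A Polish faithful irreducible coset space with infinitely many minimal closed normal subgroups. -/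
theorem result : ∃ (G : Type) (_ : Group G) (_ : TopologicalSpace G), IsTopologicalGroup G ∧ PolishSpace G ∧
    ∃ H : Subgroup G, Irreducible' H ∧ Faithful H ∧
      {M : Subgroup G | MinNormal M}.Infinite :=
  ⟨Coset.G, inferInstance, inferInstance, inferInstance, inferInstance, Coset.H,
    ⟨Coset.H_closed, Coset.H_ne, Coset.H_max⟩, (Subgroup.eq_bot_iff_forall _).1 Coset.H_core,
    Set.infinite_of_injective_forall_mem (f := Coset.M) (fun a b h => by_contra fun c =>
      Coset.M_ne b (by simpa [h] using Coset.M_inf c)) minN⟩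

end Pool.Agent.Results.MP_e825aa_al.Polish
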